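import Pool.Agent.W788.BK.Stm

/-!
# BK-ES: Efron-Stein inequality
-/

set_option autoImplicit false

namespace Pool.Agent.W193.BK.ES

open MeasureTheory
open Pool.Agent.W788.BK

section one

variable {Ω : Type*} [MeasurableSpace Ω] (P : Measure Ω) [IsProbabilityMeasure P]

theorem int_bdd (g : Ω → ℂ) (hm : AEStronglyMeasurable g P) (C : ℝ) (hb : ∀ w, ‖g w‖ ≤ C) :
    Integrable g P := Integrable.of_bound hm C (Filter.Eventually.of_forall hb)

theorem int_sq (g : Ω → ℂ) (hm : AEStronglyMeasurable g P) (C : ℝ) (hb : ∀ w, ‖g w‖ ≤ C) :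
    Integrable (fun w => ‖g w‖ ^ 2) P := by
  refine Integrable.of_bound (hm.norm.pow 2) (C ^ 2) (Filter.Eventually.of_forall fun w => ?_)
  rw [Real.norm_eq_abs, abs_of_nonneg (by positivity)]
  exact pow_le_pow_left₀ (norm_nonneg _) (hb w) 2

theorem var_split (g : Ω → ℂ) (hm : AEStronglyMeasurable g P) (C : ℝ) (hb : ∀ w, ‖g w‖ ≤ C)
    (c : ℂ) :
    ∫ w, ‖g w - c‖ ^ 2 ∂P =
      ∫ w, ‖g w - ∫ w', g w' ∂P‖ ^ 2 ∂P + ‖∫ w, g w ∂P - c‖ ^ 2 := by
  set a := ∫ w, g w ∂P with ha
  have hi := int_bdd P g hm C hb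
  have hpt : ∀ w, ‖g w - c‖ ^ 2 =
      ‖g w - a‖ ^ 2 + (2 * RCLike.re ((g w - a) * (starRingEnd ℂ) (a - c)) + ‖a - c‖ ^ 2) := by
    intro w
    have h1 : g w - c = (g w - a) + (a - c) := by ring
    rw [h1, ← Complex.normSq_eq_norm_sq, ← Complex.normSq_eq_norm_sq, ← Complex.normSq_eq_norm_sq,
      Complex.normSq_add]
    simp only [RCLike.re_to_complex]
    ring
  have hm' : AEStronglyMeasurable (fun w => g w - a) P := hm.sub aestronglyMeasurable_const
  have hb' : ∀ w, ‖g w - a‖ ≤ C + ‖a‖ := fun w =>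
    (norm_sub_le _ _).trans (add_le_add_left (hb w) _)
  have i1 := int_sq P (fun w => g w - a) hm' _ hb'
  have i2 : Integrable (fun w => (g w - a) * (starRingEnd ℂ) (a - c)) P :=
    (int_bdd P _ hm' _ hb').mul_const _
  have i3 : Integrable (fun w => 2 * RCLike.re ((g w - a) * (starRingEnd ℂ) (a - c))) P :=
    (i2.re).const_mul 2
  have h0 : ∫ w, RCLike.re ((g w - a) * (starRingEnd ℂ) (a - c)) ∂P = 0 := by
    rw [integral_re i2, integral_mul_const, integral_sub hi (integrable_const _)]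
    simp [← ha]
  have i4 : Integrable (fun w => 2 * RCLike.re ((g w - a) * (starRingEnd ℂ) (a - c)) +
      ‖a - c‖ ^ 2) P := i3.add (integrable_const _)
  rw [integral_congr_ae (Filter.Eventually.of_forall hpt), integral_add i1 i4,
    integral_add i3 (integrable_const _), integral_const_mul, h0]
  simp

theorem norm_int_sq (g : Ω → ℂ) (hm : AEStronglyMeasurable g P) (C : ℝ) (hb : ∀ w, ‖g w‖ ≤ C) :
    ‖∫ w, g w ∂P‖ ^ 2 ≤ ∫ w, ‖g w‖ ^ 2 ∂P := by
  have h := var_split P g hm C hb 0
  simp only [sub_zero] at h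
  rw [h]
  have : 0 ≤ ∫ w, ‖g w - ∫ w', g w' ∂P‖ ^ 2 ∂P := integral_nonneg fun w => by positivity
  linarith

theorem var_le (g : Ω → ℂ) (hm : AEStronglyMeasurable g P) (C : ℝ) (hb : ∀ w, ‖g w‖ ≤ C)
    (c : ℂ) :
    ∫ w, ‖g w - ∫ w', g w' ∂P‖ ^ 2 ∂P ≤ ∫ w, ‖g w - c‖ ^ 2 ∂P := by
  have h := var_split P g hm C hb c
  have : 0 ≤ ‖∫ w, g w ∂P - c‖ ^ 2 := by positivity
  linarith

end one

theorem es_fin (μ : Measure ℝ) [IsProbabilityMeasure μ] (n : ℕ) :
    ∀ F : (Fin n → ℝ) → ℂ, Continuous F → (∃ C : ℝ, ∀ V, ‖F V‖ ≤ C) →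
    ∫ V, ‖F V - ∫ U, F U ∂(Measure.pi fun _ => μ)‖ ^ 2 ∂(Measure.pi fun _ => μ) ≤
      ∑ y, ∫ V, ‖F V - F (Function.update V y 0)‖ ^ 2 ∂(Measure.pi fun _ => μ) := by
  induction n with
  | zero =>
    intro F _ _
    have h1 : ∀ U : Fin 0 → ℝ, F U = F default := fun U => by rw [Subsingleton.elim U default]
    simp [h1]
  | succ n ih =>
    intro F hF hC
    obtain ⟨C, hC⟩ := hC
    set P : Measure (Fin n → ℝ) := Measure.pi fun _ => μ with hP
    have hmp := (measurePreserving_piFinSuccAbove (n := n) (α := fun _ => ℝ) (fun _ => μ) 0)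
    have hmps := hmp.symm
    have key : ∀ {E : Type} [NormedAddCommGroup E] [NormedSpace ℝ E] (G : (Fin (n+1) → ℝ) → E),
        ∫ V, G V ∂(Measure.pi fun _ => μ) = ∫ z, G (Fin.cons z.1 z.2) ∂(μ.prod P) := by
      intro E _ _ G
      have h := hmps.integral_comp (MeasurableEquiv.measurableEmbedding _) G
      rw [← h]
      refine integral_congr_ae (Filter.Eventually.of_forall fun z => ?_)
      change G (Fin.insertNth 0 z.1 z.2) = G (Fin.cons z.1 z.2)
      rw [Fin.insertNth_zero']
    have hcons : Continuous fun z : ℝ × (Fin n → ℝ) => (Fin.cons z.1 z.2 : Fin (n+1) → ℝ) := by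
      refine continuous_pi fun i => ?_
      refine Fin.cases ?_ (fun j => ?_) i
      · simpa using continuous_fst
      · simp only [Fin.cons_succ]
        exact (continuous_apply j).comp continuous_snd
    have hf : Continuous fun z : ℝ × (Fin n → ℝ) => F (Fin.cons z.1 z.2) := hF.comp hcons
    have hfx : ∀ x : ℝ, Continuous fun W : Fin n → ℝ => F (Fin.cons x W) := fun x =>
      hf.comp (Continuous.prodMk continuous_const continuous_id)
    have hb : ∀ z : ℝ × (Fin n → ℝ), ‖F (Fin.cons z.1 z.2)‖ ≤ C := fun z => hC _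
    set G : ℝ → ℂ := fun x => ∫ W, F (Fin.cons x W) ∂P with hG
    have hfm : AEStronglyMeasurable (fun z : ℝ × (Fin n → ℝ) => F (Fin.cons z.1 z.2)) (μ.prod P) :=
      hf.aestronglyMeasurable
    have hGm : AEStronglyMeasurable G μ := hfm.integral_prod_right'
    have hGb : ∀ x, ‖G x‖ ≤ C := by
      intro x
      refine (norm_integral_le_of_norm_le_const (Filter.Eventually.of_forall fun W => hC _)).trans ?_
      simp
    set a := ∫ U, F U ∂(Measure.pi fun _ : Fin (n+1) => μ) with ha
    have hfi : Integrable (fun z : ℝ × (Fin n → ℝ) => F (Fin.cons z.1 z.2)) (μ.prod P) :=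
      int_bdd _ _ hfm C hb
    have haG : a = ∫ x, G x ∂μ := by
      rw [ha, key F, integral_prod _ hfi]
    -- decomposition
    have hb2 : ∀ z : ℝ × (Fin n → ℝ), ‖F (Fin.cons z.1 z.2) - a‖ ≤ C + ‖a‖ := fun z =>
      (norm_sub_le _ _).trans (add_le_add_left (hb z) _)
    have i1 : Integrable (fun z : ℝ × (Fin n → ℝ) => ‖F (Fin.cons z.1 z.2) - a‖ ^ 2) (μ.prod P) :=
      int_sq _ _ (hfm.sub aestronglyMeasurable_const) _ hb2
    have e1 : ∫ V, ‖F V - a‖ ^ 2 ∂(Measure.pi fun _ => μ) =
        ∫ x, ((∫ W, ‖F (Fin.cons x W) - G x‖ ^ 2 ∂P) + ‖G x - a‖ ^ 2) ∂μ := by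
      rw [key fun V => ‖F V - a‖ ^ 2, integral_prod _ i1]
      refine integral_congr_ae (Filter.Eventually.of_forall fun x => ?_)
      exact var_split P (fun W => F (Fin.cons x W)) (hfx x).aestronglyMeasurable C (fun W => hC _) a
    have i2 : Integrable (fun x => ‖G x - a‖ ^ 2) μ :=
      int_sq _ _ (hGm.sub aestronglyMeasurable_const) (C + ‖a‖)
        fun x => (norm_sub_le _ _).trans (add_le_add_left (hGb x) _)
    have hFG : AEStronglyMeasurable
        (fun z : ℝ × (Fin n → ℝ) => F (Fin.cons z.1 z.2) - G z.1) (μ.prod P) :=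
      hfm.sub hGm.comp_fst
    have i3' : Integrable (fun z : ℝ × (Fin n → ℝ) => ‖F (Fin.cons z.1 z.2) - G z.1‖ ^ 2)
        (μ.prod P) := int_sq _ _ hFG (C + C) fun z =>
          (norm_sub_le _ _).trans (add_le_add (hb z) (hGb z.1))
    have i3 : Integrable (fun x => ∫ W, ‖F (Fin.cons x W) - G x‖ ^ 2 ∂P) μ :=
      i3'.integral_prod_left
    rw [e1, integral_add i3 i2, Fin.sum_univ_succ, add_comm]
    refine add_le_add ?_ ?_
    · -- the first coordinate
      rw [key fun V => ‖F V - F (Function.update V 0 0)‖ ^ 2]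
      have hup : ∀ z : ℝ × (Fin n → ℝ),
          Function.update (Fin.cons z.1 z.2 : Fin (n+1) → ℝ) 0 0 = Fin.cons 0 z.2 := fun z => by
        rw [Fin.update_cons_zero]
      simp only [hup]
      have hf0 : Continuous fun z : ℝ × (Fin n → ℝ) => F (Fin.cons 0 z.2) :=
        (hfx 0).comp continuous_snd
      have i4 : Integrable (fun z : ℝ × (Fin n → ℝ) =>
          ‖F (Fin.cons z.1 z.2) - F (Fin.cons 0 z.2)‖ ^ 2) (μ.prod P) :=
        int_sq _ _ (hfm.sub hf0.aestronglyMeasurable) (C + C) fun z =>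
          (norm_sub_le _ _).trans (add_le_add (hb z) (hC _))
      rw [integral_prod _ i4]
      have s1 : ∫ x, ‖G x - a‖ ^ 2 ∂μ ≤ ∫ x, ‖G x - G 0‖ ^ 2 ∂μ := by
        rw [haG]; exact var_le μ G hGm C hGb (G 0)
      refine s1.trans ?_
      refine integral_mono (int_sq _ _ (hGm.sub aestronglyMeasurable_const) (C + C) fun x =>
        (norm_sub_le _ _).trans (add_le_add (hGb x) (hGb 0))) i4.integral_prod_left fun x => ?_
      have hd : G x - G 0 = ∫ W, (F (Fin.cons x W) - F (Fin.cons 0 W)) ∂P := by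
        rw [integral_sub]
        · exact int_bdd P _ (hfx x).aestronglyMeasurable C fun W => hC _
        · exact int_bdd P _ (hfx 0).aestronglyMeasurable C fun W => hC _
      simp only [hd]
      exact norm_int_sq P _ ((hfx x).sub (hfx 0)).aestronglyMeasurable (C + C) fun W =>
        (norm_sub_le _ _).trans (add_le_add (hC _) (hC _))
    · have i5 : ∀ j : Fin n, Integrable (fun z : ℝ × (Fin n → ℝ) =>
          ‖F (Fin.cons z.1 z.2) - F (Fin.cons z.1 (Function.update z.2 j 0))‖ ^ 2) (μ.prod P) := by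
        intro j
        have hc : Continuous fun z : ℝ × (Fin n → ℝ) => F (Fin.cons z.1 (Function.update z.2 j 0)) :=
          hf.comp (Continuous.prodMk continuous_fst (continuous_snd.update j continuous_const))
        exact int_sq _ _ (hfm.sub hc.aestronglyMeasurable) (C + C) fun z =>
          (norm_sub_le _ _).trans (add_le_add (hC _) (hC _))
      have e5 : ∀ j : Fin n, ∫ V, ‖F V - F (Function.update V j.succ 0)‖ ^ 2
          ∂(Measure.pi fun _ => μ) = ∫ x, (∫ W, ‖F (Fin.cons x W) -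
            F (Fin.cons x (Function.update W j 0))‖ ^ 2 ∂P) ∂μ := by
        intro j
        rw [key fun V => ‖F V - F (Function.update V j.succ 0)‖ ^ 2]
        have hup : ∀ z : ℝ × (Fin n → ℝ),
            Function.update (Fin.cons z.1 z.2 : Fin (n+1) → ℝ) j.succ 0 =
              Fin.cons z.1 (Function.update z.2 j 0) := fun z => by
          rw [Fin.cons_update]
        simp only [hup]
        rw [integral_prod _ (i5 j)]
      simp only [e5]
      rw [← integral_finsetSum _ fun j _ => (i5 j).integral_prod_left]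
      refine integral_mono i3 (integrable_finsetSum _ fun j _ => (i5 j).integral_prod_left)
        fun x => ?_
      exact ih (fun W => F (Fin.cons x W)) (hfx x) ⟨C, fun W => hC _⟩

theorem es : S_ES := by
  intro m _ _ μ _ F hF hC
  obtain ⟨C, hC⟩ := hC
  unfold PP
  set e : Fin (Fintype.card m) ≃ m := (Fintype.equivFin m).symm with he
  have hmp := measurePreserving_piCongrLeft (α := fun _ : m => ℝ) (fun _ => μ) e
  set T := MeasurableEquiv.piCongrLeft (fun _ : m => ℝ) e with hT
  have hTv : ∀ (V : Fin (Fintype.card m) → ℝ), T V = fun y => V (e.symm y) := by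
    intro V
    funext y
    have := MeasurableEquiv.piCongrLeft_apply_apply e (β := fun _ : m => ℝ) V (e.symm y)
    rw [Equiv.apply_symm_apply] at this
    exact this
  have key : ∀ {E : Type} [NormedAddCommGroup E] [NormedSpace ℝ E] (G : (m → ℝ) → E),
      ∫ V, G V ∂(Measure.pi fun _ => μ) =
        ∫ V : Fin (Fintype.card m) → ℝ, G (fun y => V (e.symm y)) ∂(Measure.pi fun _ => μ) := by
    intro E _ _ G
    have h := hmp.integral_comp (MeasurableEquiv.measurableEmbedding _) G
    rw [← h]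
    refine integral_congr_ae (Filter.Eventually.of_forall fun V => ?_)
    simp only
    rw [← hTv V]
  have hFc : Continuous fun V : Fin (Fintype.card m) → ℝ => F fun y => V (e.symm y) :=
    hF.comp (continuous_pi fun y => continuous_apply _)
  have h := es_fin μ (Fintype.card m) (fun V => F fun y => V (e.symm y)) hFc ⟨C, fun V => hC _⟩
  rw [key fun V => ‖F V - ∫ U, F U ∂(Measure.pi fun _ => μ)‖ ^ 2, key F]
  refine h.trans (le_of_eq ?_)
  rw [← Equiv.sum_comp e]
  refine Finset.sum_congr rfl fun j _ => ?_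
  rw [key fun V => ‖F V - F (Function.update V (e j) 0)‖ ^ 2]
  refine integral_congr_ae (Filter.Eventually.of_forall fun V => ?_)
  simp only
  congr 4
  funext y
  by_cases hy : y = e j
  · subst hy; simp
  · rw [Function.update_of_ne hy, Function.update_of_ne]
    intro h'; apply hy; rw [← h']; simp

end Pool.Agent.W193.BK.ES
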