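import Pool.Agent.W95.BK.Stm

/-!
# Counts in discs (task BK-LC, helper193)
-/

open Polynomial Topology Filter

namespace Pool.Agent.W193.BK.LC

open Pool.Agent.W95.BK

universe u

section
variable {K : Type u} [NontriviallyNormedField K]

/-- Gauss norm by the roots -/
noncomputable def Gp (a : K) (F : K[X]) (s : ℝ) : ℝ :=
  ‖F.leadingCoeff‖ * (F.roots.map (fun w => max ‖a - w‖ s)).prod

theorem gn_eq [IsUltrametricDist K] [IsAlgClosed K] (hV : S_VAL.{u}) (hG : S_GLAM.{u}) (a : K)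
    (F : K[X]) {s : ℝ} (hs : 0 < s) : gn a s F = Gp a F s := by
  have h := hV K (gauss a s hs) F
  have h2 : (F.roots.map (fun w => lam (gauss a s hs) w)) =
      F.roots.map (fun w => max ‖a - w‖ s) :=
    Multiset.map_congr rfl fun w _ => (hG K a w).2 s hs
  rw [h2] at h
  exact h

theorem Gp_pos {a : K} {F : K[X]} (hF : F ≠ 0) {s : ℝ} (hs : 0 < s) : 0 < Gp a F s := by
  refine mul_pos (norm_pos_iff.2 (leadingCoeff_ne_zero.2 hF)) ?_
  generalize F.roots = R
  induction R using Multiset.induction_on with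
  | empty => simp
  | cons w R ih =>
    rw [Multiset.map_cons, Multiset.prod_cons]
    exact mul_pos (lt_max_of_lt_right hs) ih

theorem Gp_cont (a : K) (F : K[X]) : Continuous (Gp a F) :=
  continuous_const.mul (continuous_multiset_prod _ fun _ _ => continuous_const.max continuous_id)

open Classical in
theorem tool (a : K) (S : Set K) {s r : ℝ} (R : Multiset K)
    (h1 : ∀ w ∈ R, w ∈ S → ‖a - w‖ ≤ s ∧ ‖a - w‖ ≤ r)
    (h2 : ∀ w ∈ R, w ∉ S → s ≤ ‖a - w‖ ∧ r ≤ ‖a - w‖) :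
    (R.map (fun w => max ‖a - w‖ r)).prod * s ^ (R.filter (fun w => w ∈ S)).card =
      (R.map (fun w => max ‖a - w‖ s)).prod * r ^ (R.filter (fun w => w ∈ S)).card := by
  induction R using Multiset.induction_on with
  | empty => simp
  | cons w R ih =>
    have ih' := ih (fun v hv => h1 v (Multiset.mem_cons_of_mem hv))
      (fun v hv => h2 v (Multiset.mem_cons_of_mem hv))
    rw [Multiset.map_cons, Multiset.prod_cons, Multiset.map_cons, Multiset.prod_cons]
    by_cases hw : w ∈ S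
    · obtain ⟨e1, e2⟩ := h1 w (Multiset.mem_cons_self w R) hw
      rw [max_eq_right e1, max_eq_right e2, Multiset.filter_cons_of_pos _ hw,
        Multiset.card_cons, pow_succ, pow_succ]
      linear_combination (r * s) * ih'
    · obtain ⟨e1, e2⟩ := h2 w (Multiset.mem_cons_self w R) hw
      rw [max_eq_left e1, max_eq_left e2, Multiset.filter_cons_of_neg _ hw]
      linear_combination ‖a - w‖ * ih'

theorem toolG (a : K) (S : Set K) {s r : ℝ} (F : K[X])
    (h1 : ∀ w ∈ F.roots, w ∈ S → ‖a - w‖ ≤ s ∧ ‖a - w‖ ≤ r)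
    (h2 : ∀ w ∈ F.roots, w ∉ S → s ≤ ‖a - w‖ ∧ r ≤ ‖a - w‖) :
    Gp a F r * s ^ nIn F S = Gp a F s * r ^ nIn F S := by
  unfold Gp nIn
  linear_combination ‖F.leadingCoeff‖ * tool a S F.roots h1 h2

theorem exp_eq {r s : ℝ} (hr : 0 < r) (hs : 0 < s) (hne : s ≠ r) {g1 g2 g3 g4 : ℝ} {n n' : ℕ}
    (h1 : g1 * s ^ n = g2 * r ^ n) (h2 : g3 * s ^ n' = g4 * r ^ n') (h3 : g1 * g4 = g2 * g3)
    (hg2 : g2 ≠ 0) (hg3 : g3 ≠ 0) : n = n' := by
  have e1 : (g2 * g3) * (s ^ n * r ^ n') = (g2 * g3) * (r ^ n * s ^ n') := by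
    linear_combination (g4 * r ^ n') * h1 - (g2 * r ^ n) * h2 - (s ^ n * r ^ n') * h3
  have e2 := mul_left_cancel₀ (mul_ne_zero hg2 hg3) e1
  have e3 : (r / s) ^ n' = (r / s) ^ n := by
    rw [div_pow, div_pow, div_eq_div_iff (pow_ne_zero _ hs.ne') (pow_ne_zero _ hs.ne')]
    linear_combination e2
  have hne' : r / s ≠ 1 := by
    intro h
    rw [div_eq_one_iff_eq hs.ne'] at h
    exact hne h.symm
  exact (pow_right_injective₀ (div_pos hr hs) hne' e3).symm

theorem near_left (a : K) (r : ℝ) (T : Finset K) :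
    ∀ᶠ s in 𝓝[<] r, ∀ w ∈ T, ‖a - w‖ < r → ‖a - w‖ < s := by
  rw [Filter.eventually_all_finset]
  intro w _
  by_cases h : ‖a - w‖ < r
  · filter_upwards [eventually_nhdsWithin_of_eventually_nhds (lt_mem_nhds h)] with s hs _ using hs
  · exact Filter.Eventually.of_forall fun s h' => absurd h' h

theorem near_right (a : K) (r : ℝ) (T : Finset K) :
    ∀ᶠ s in 𝓝[>] r, ∀ w ∈ T, r < ‖a - w‖ → s < ‖a - w‖ := by
  rw [Filter.eventually_all_finset]
  intro w _
  by_cases h : r < ‖a - w‖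
  · filter_upwards [eventually_nhdsWithin_of_eventually_nhds (gt_mem_nhds h)] with s hs _ using hs
  · exact Filter.Eventually.of_forall fun s h' => absurd h' h

theorem cnt_eq {a : K} {r : ℝ} (hr : 0 < r) {F F' : K[X]} (hF : F ≠ 0) (hF' : F' ≠ 0)
    (h : ∀ᶠ s in 𝓝 r, Gp a F r * Gp a F' s = Gp a F s * Gp a F' r) :
    nIn F {w | ‖w - a‖ < r} = nIn F' {w | ‖w - a‖ < r} ∧
      nIn F {w | ‖w - a‖ ≤ r} = nIn F' {w | ‖w - a‖ ≤ r} := by
  classical
  have hpos : ∀ᶠ s in 𝓝 r, 0 < s := lt_mem_nhds hr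
  constructor
  · obtain ⟨s, hs0, hsr, hs, hT⟩ := ((eventually_nhdsWithin_of_eventually_nhds hpos).and
      ((eventually_mem_nhdsWithin (a := r) (s := Set.Iio r)).and
      ((eventually_nhdsWithin_of_eventually_nhds h).and
        (near_left a r (F.roots.toFinset ∪ F'.roots.toFinset))))).exists
    have hsr' : s < r := hsr
    have key : ∀ G : K[X], (∀ w ∈ G.roots, ‖a - w‖ < r → ‖a - w‖ < s) →
        Gp a G r * s ^ nIn G {w | ‖w - a‖ < r} = Gp a G s * r ^ nIn G {w | ‖w - a‖ < r} := by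
      intro G hG
      refine toolG a _ G (fun w hw hwS => ?_) (fun w hw hwS => ?_)
      · have h1 : ‖a - w‖ < r := by rw [norm_sub_rev]; exact hwS
        exact ⟨(hG w hw h1).le, h1.le⟩
      · have h1 : r ≤ ‖a - w‖ := by rw [norm_sub_rev]; exact not_lt.1 hwS
        exact ⟨hsr'.le.trans h1, h1⟩
    exact exp_eq hr hs0 hsr'.ne
      (key F fun w hw => hT w (Finset.mem_union_left _ (Multiset.mem_toFinset.2 hw)))
      (key F' fun w hw => hT w (Finset.mem_union_right _ (Multiset.mem_toFinset.2 hw)))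
      hs (Gp_pos hF hs0).ne' (Gp_pos hF' hr).ne'
  · obtain ⟨s, hs0, hsr, hs, hT⟩ := ((eventually_nhdsWithin_of_eventually_nhds hpos).and
      ((eventually_mem_nhdsWithin (a := r) (s := Set.Ioi r)).and
      ((eventually_nhdsWithin_of_eventually_nhds h).and
        (near_right a r (F.roots.toFinset ∪ F'.roots.toFinset))))).exists
    have hsr' : r < s := hsr
    have key : ∀ G : K[X], (∀ w ∈ G.roots, r < ‖a - w‖ → s < ‖a - w‖) →
        Gp a G r * s ^ nIn G {w | ‖w - a‖ ≤ r} = Gp a G s * r ^ nIn G {w | ‖w - a‖ ≤ r} := by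
      intro G hG
      refine toolG a _ G (fun w hw hwS => ?_) (fun w hw hwS => ?_)
      · have h1 : ‖a - w‖ ≤ r := by rw [norm_sub_rev]; exact hwS
        exact ⟨h1.trans hsr'.le, h1⟩
      · have h1 : r < ‖a - w‖ := by rw [norm_sub_rev]; exact not_le.1 hwS
        exact ⟨(hG w hw h1).le, h1.le⟩
    exact exp_eq hr hs0 hsr'.ne'
      (key F fun w hw => hT w (Finset.mem_union_left _ (Multiset.mem_toFinset.2 hw)))
      (key F' fun w hw => hT w (Finset.mem_union_right _ (Multiset.mem_toFinset.2 hw)))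
      hs (Gp_pos hF hs0).ne' (Gp_pos hF' hr).ne'

theorem F_ne (f : RMap K) (b : K) : f.P - C b * f.Q ≠ 0 := by
  intro h
  have hP : f.P = C b * f.Q := sub_eq_zero.1 h
  have hc := f.cop
  rw [hP] at hc
  have hu : IsUnit f.Q := by
    have h1 : IsCoprime f.Q f.Q := hc.of_mul_left_right
    exact isCoprime_self.1 h1
  have hQ := natDegree_eq_zero_of_isUnit hu
  have hP0 : f.P.natDegree = 0 := by
    have h1 := natDegree_C_mul_le b f.Q
    rw [← hP, hQ] at h1
    omega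
  have h1 := f.deg_eq
  have h2 := f.pos
  rw [hQ, hP0] at h1
  simp at h1
  omega

theorem Q_ne (f : RMap K) : f.Q ≠ 0 := by
  intro h
  have hc := f.cop
  rw [h, isCoprime_zero_right] at hc
  have hP := natDegree_eq_zero_of_isUnit hc
  have h1 := f.deg_eq
  have h2 := f.pos
  rw [h, hP] at h1
  simp at h1
  omega

theorem gauss_HK [IsUltrametricDist K] (hG : S_GLAM.{u}) (a : K) {r : ℝ} (hr : 0 < r) : HK (gauss a r hr) := by
  intro b h
  have h1 := (hG K a b).2 r hr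
  have h2 := (hG K b b).1
  rw [h, h2, sub_self, norm_zero] at h1
  exact absurd h1 (lt_max_of_lt_right hr).ne

theorem img [IsUltrametricDist K] [IsAlgClosed K] (hV : S_VAL.{u}) (hG : S_GLAM.{u}) (hA : S_ACT.{u}) (f : RMap K) (a : K) {r : ℝ}
    (hr : 0 < r) : ∃ z : BA K, f.act ((gauss a r hr : BA K) : P1B K) = (z : P1B K) ∧
      ∀ b, lam z b = Gp a (f.P - C b * f.Q) r / Gp a f.Q r := by
  obtain ⟨z, -, hz, -, hb⟩ := (hA K f).1 (gauss a r hr) (gauss_HK hG a hr)
  refine ⟨z, hz, fun b => ?_⟩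
  rw [hb b, ← gn_eq hV hG a _ hr, ← gn_eq hV hG a _ hr]
  rfl

theorem ext_lam [IsAlgClosed K] (hV : S_VAL.{u}) {x y : BA K} (h : ∀ c, lam x c = lam y c) : x = y := by
  ext F
  rw [hV K x F, hV K y F]
  congr 2
  exact Multiset.map_congr rfl fun w _ => h w

end

theorem lc : S_VAL.{u} → S_ISO.{u} → S_GLAM.{u} → S_ACT.{u} → S_ACTC.{u} → S_EV.{u} → S_NB.{u} →
    S_AVOID.{u} → S_LC.{u} := by
  intro hV hI hG hA _ _ hN _ K _ _ _ f a r hr y hy hne
  obtain ⟨z, hz, hzl⟩ := img hV hG hA f a hr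
  have hzy : z ≠ y := by
    rintro rfl
    exact hne hz
  obtain ⟨c, hc⟩ : ∃ c, lam y c ≠ lam z c := by
    by_contra h
    push Not at h
    exact hzy (ext_lam hV h).symm
  -- continuity in the radius
  obtain ⟨L, hL⟩ : ∃ L : ℝ → K → ℝ, L = fun s b => Gp a (f.P - C b * f.Q) s / Gp a f.Q s :=
    ⟨_, rfl⟩
  have hQ := Q_ne f
  have hLc : ∀ b, ContinuousAt (fun s => L s b) r := by
    intro b
    rw [hL]
    exact (Gp_cont a _).continuousAt.div (Gp_cont a _).continuousAt (Gp_pos hQ hr).ne'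
  have hLz : ∀ s, 0 < s → ∃ w : BA K, ∀ b, lam w b = L s b := by
    intro s hs
    obtain ⟨w, -, hw⟩ := img hV hG hA f a hs
    refine ⟨w, fun b => ?_⟩
    rw [hw, hL]
  have hpos : ∀ᶠ s in 𝓝 r, 0 < s := lt_mem_nhds hr
  have hzc : lam z c = L r c := by rw [hzl, hL]
  -- the set of good `b`
  obtain ⟨A, hAm, hAL⟩ : ∃ A ∈ toward (y : P1B K), ∀ b ∈ A, ∀ b' ∈ A, ∀ᶠ s in 𝓝 r,
      L r b * L s b' = L s b * L r b' := by
    rcases lt_or_gt_of_ne hc with hlt | hlt
    · obtain ⟨ρ, h1, h2⟩ := exists_between hlt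
      refine ⟨{b | ‖b - c‖ < ρ}, ?_, ?_⟩
      · refine ⟨ball c ρ, ((hN K).2.2.1 c ρ).mem_nhds ⟨y, rfl, h1⟩, ?_⟩
        rintro b ⟨x, hx, hxc⟩
        have : cl b = x := OnePoint.coe_injective hx
        rw [← this, (hG K b c).1] at hxc
        exact hxc
      · have hs : ∀ᶠ s in 𝓝 r, ρ < L s c := 
          (hLc c).eventually (lt_mem_nhds (show ρ < L r c by rw [← hzc]; exact h2))
        have key : ∀ s, 0 < s → ρ < L s c → ∀ b, ‖b - c‖ < ρ → L s b = L s c := by
          intro s hs0 hs b hb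
          obtain ⟨w, hw⟩ := hLz s hs0
          have := (hI K w b c).2.2.2 (by rw [hw]; exact hb.trans hs)
          rw [hw, hw] at this
          exact this
        intro b hb b' hb'
        filter_upwards [hs, hpos] with s h3 h4
        rw [key s h4 h3 b hb, key s h4 h3 b' hb', key r hr (by rw [← hzc]; exact h2) b hb,
          key r hr (by rw [← hzc]; exact h2) b' hb', mul_comm]
    · obtain ⟨ρ, h1, h2⟩ := exists_between hlt
      refine ⟨{b | ρ < ‖b - c‖}, ?_, ?_⟩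
      · refine ⟨{x : P1B K | ∀ y : BA K, x = (y : P1B K) → ρ < lam y c},
          ((hN K).2.2.2 c ρ).mem_nhds ?_, ?_⟩
        · intro y' hy'
          have : y = y' := OnePoint.coe_injective hy'
          rw [← this]
          exact h2
        · intro b hb
          have := hb (cl b) rfl
          rw [(hG K b c).1] at this
          exact this
      · have hs : ∀ᶠ s in 𝓝 r, L s c < ρ := 
          (hLc c).eventually (gt_mem_nhds (show L r c < ρ by rw [← hzc]; exact h1))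
        have key : ∀ s, 0 < s → L s c < ρ → ∀ b, ρ < ‖b - c‖ → L s b = ‖b - c‖ := by
          intro s hs0 hs b hb
          obtain ⟨w, hw⟩ := hLz s hs0
          have := (hI K w b c).2.2.1 (by rw [hw]; exact hs.trans hb)
          rw [hw] at this
          exact this
        intro b hb b' hb'
        filter_upwards [hs, hpos] with s h3 h4
        rw [key s h4 h3 b hb, key s h4 h3 b' hb', key r hr (by rw [← hzc]; exact h1) b hb,
          key r hr (by rw [← hzc]; exact h1) b' hb']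
  have hcnt : ∀ b ∈ A, ∀ b' ∈ A,
      nIn (f.P - C b * f.Q) {w | ‖w - a‖ < r} = nIn (f.P - C b' * f.Q) {w | ‖w - a‖ < r} ∧
      nIn (f.P - C b * f.Q) {w | ‖w - a‖ ≤ r} = nIn (f.P - C b' * f.Q) {w | ‖w - a‖ ≤ r} := by
    intro b hb b' hb'
    refine cnt_eq hr (F_ne f b) (F_ne f b') ?_
    filter_upwards [hAL b hb b' hb', hpos] with s h1 h2
    rw [hL] at h1
    have q1 := (Gp_pos (a := a) hQ hr).ne'
    have q2 := (Gp_pos (a := a) hQ h2).ne'
    simp only at h1
    rw [div_mul_div_comm, div_mul_div_comm, mul_comm (Gp a f.Q s) (Gp a f.Q r)] at h1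
    exact (div_left_inj' (mul_ne_zero q1 q2)).1 h1
  by_cases hAne : A.Nonempty
  · obtain ⟨b0, hb0⟩ := hAne
    refine ⟨nIn (f.P - C b0 * f.Q) {w | ‖w - a‖ < r}, nIn (f.P - C b0 * f.Q) {w | ‖w - a‖ ≤ r}, ?_⟩
    filter_upwards [hAm] with b hb
    exact hcnt b hb b0 hb0
  · refine ⟨0, 0, ?_⟩
    filter_upwards [hAm] with b hb
    exact absurd ⟨b, hb⟩ hAne

theorem nc : S_VAL.{u} → S_ISO.{u} → S_GLAM.{u} → S_ACT.{u} → S_ACTC.{u} → S_EV.{u} → S_NB.{u} →
    S_AVOID.{u} → S_DVG.{u} → S_NC.{u} := by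
  classical
  intro hV hI hG hA _ _ hN _ hD K _ _ _ f a s t y hs hst
  by_contra hcon
  push Not at hcon
  have hQ := Q_ne f
  -- the constant image
  obtain ⟨y', hy'⟩ : ∃ y' : BA K, ∀ r, s < r → r < t → ∀ b,
      Gp a (f.P - C b * f.Q) r = lam y' b * Gp a f.Q r := by
    obtain ⟨r1, h1, h2⟩ := exists_between hst
    obtain ⟨z1, hz1, -⟩ := img hV hG hA f a (hs.trans h1)
    refine ⟨z1, fun r h3 h4 b => ?_⟩
    obtain ⟨z, hz, hzl⟩ := img hV hG hA f a (hs.trans h3)
    have : (z : P1B K) = (z1 : P1B K) := by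
      rw [← hz, ← hz1, hcon r (hs.trans h3) h3 h4, hcon r1 (hs.trans h1) h1 h2]
    have hzz : z = z1 := OnePoint.coe_injective this
    rw [← hzz, hzl b, div_mul_cancel₀ _ (Gp_pos hQ (hs.trans h3)).ne']
  -- no root of `Q` nearby
  obtain ⟨t', ht1, ht2, hT⟩ := ((eventually_mem_nhdsWithin (a := s) (s := Set.Ioi s)).and
    ((eventually_nhdsWithin_of_eventually_nhds (gt_mem_nhds hst)).and
      (near_right a s f.Q.roots.toFinset))).exists
  have ht1' : s < t' := ht1
  obtain ⟨c, hc1, hc2⟩ := hD K s t' hs ht1'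
  have hr : 0 < ‖c‖ := hs.trans hc1
  obtain ⟨w0, hw0⟩ : ∃ w0 : K, w0 = a + c := ⟨_, rfl⟩
  have hn : ‖w0 - a‖ = ‖c‖ := by rw [hw0, add_sub_cancel_left]
  have hroot : ∀ w ∈ f.Q.roots, ‖w - a‖ ≠ ‖c‖ := by
    intro w hw h
    have h1 := hT w (Multiset.mem_toFinset.2 hw) (by rw [norm_sub_rev, h]; exact hc1)
    rw [norm_sub_rev, h] at h1
    exact absurd hc2 (not_lt.2 h1.le)
  have hQw : f.Q.eval w0 ≠ 0 := by
    intro h
    exact hroot w0 ((mem_roots hQ).2 h) hn
  obtain ⟨b, hb⟩ : ∃ b : K, b = f.P.eval w0 / f.Q.eval w0 := ⟨_, rfl⟩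
  have hFw : w0 ∈ (f.P - C b * f.Q).roots := by
    rw [mem_roots (F_ne f b), IsRoot, eval_sub, eval_mul, eval_C, hb, div_mul_cancel₀ _ hQw,
      sub_self]
  have h := cnt_eq (a := a) hr (F_ne f b) hQ (by
    filter_upwards [lt_mem_nhds hc1, gt_mem_nhds (hc2.trans ht2)] with r h1 h2
    rw [hy' r h1 h2 b, hy' ‖c‖ hc1 (hc2.trans ht2) b]
    ring)
  have hQc : nIn f.Q {w | ‖w - a‖ < ‖c‖} = nIn f.Q {w | ‖w - a‖ ≤ ‖c‖} := by
    unfold nIn
    congr 1
    refine Multiset.filter_congr fun w hw => ?_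
    exact ⟨fun h => show ‖w - a‖ ≤ ‖c‖ from le_of_lt (show ‖w - a‖ < ‖c‖ from h),
      fun h => lt_of_le_of_ne h (hroot w hw)⟩
  have hlt : nIn (f.P - C b * f.Q) {w | ‖w - a‖ < ‖c‖} <
      nIn (f.P - C b * f.Q) {w | ‖w - a‖ ≤ ‖c‖} := by
    unfold nIn
    refine Multiset.card_lt_card (lt_of_le_of_ne ?_ ?_)
    · refine Multiset.monotone_filter_right _ fun w hw => ?_
      exact le_of_lt (show ‖w - a‖ < ‖c‖ from hw)
    · intro heq
      have h1 : w0 ∈ (f.P - C b * f.Q).roots.filter (fun w => w ∈ {w | ‖w - a‖ ≤ ‖c‖}) :=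
        Multiset.mem_filter.2 ⟨hFw, hn.le⟩
      rw [← heq] at h1
      have h2 : ‖w0 - a‖ < ‖c‖ := (Multiset.mem_filter.1 h1).2
      exact h2.ne hn
  omega

end Pool.Agent.W193.BK.LC
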